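import Pool.Agent.Helper64.LN.GoalsA

set_option autoImplicit false

/-! Project LN (MP_2b9d24_gt): packet LN-GL, extension of a homomorphism from a supplement of a
normal subgroup. -/

namespace Pool.Agent.Helper3.LN

open Pool.Agent.Helper64.LN

universe v

theorem goalGL : GoalGL.{v} := by
  intro G _ N P hN M _ hsup θ hθ
  choose ν hνN hνP using hsup
  -- independence of the choice
  have indep : ∀ (g n n' : G) (_ : n ∈ N) (_ : n' ∈ N) (hP : n * g ∈ P) (hP' : n' * g ∈ P),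
      θ ⟨n * g, hP⟩ = θ ⟨n' * g, hP'⟩ := by
    intro g n n' hn hn' hP hP'
    have h1 : θ (⟨n' * g, hP'⟩ * (⟨n * g, hP⟩ : P)⁻¹) = 1 := by
      apply hθ
      have : (((⟨n' * g, hP'⟩ : P) * (⟨n * g, hP⟩ : P)⁻¹ : P) : G) = n' * n⁻¹ := by
        simp [Subgroup.coe_mul, mul_assoc]
      rw [this]
      exact N.mul_mem hn' (N.inv_mem hn)
    rw [map_mul, map_inv, mul_inv_eq_one] at h1
    exact h1.symm
  have key : ∀ (g n : G) (_ : n ∈ N) (hP : n * g ∈ P),
      θ ⟨ν g * g, hνP g⟩ = θ ⟨n * g, hP⟩ := fun g n hn hP =>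
    indep g (ν g) n (hνN g) hn (hνP g) hP
  refine ⟨MonoidHom.mk' (fun g => θ ⟨ν g * g, hνP g⟩) ?_, ?_, ?_⟩
  · intro g h
    have hn : ν g * (g * ν h * g⁻¹) ∈ N := N.mul_mem (hνN g) (hN.conj_mem _ (hνN h) g)
    have he : ν g * (g * ν h * g⁻¹) * (g * h) = (ν g * g) * (ν h * h) := by group
    have hP : ν g * (g * ν h * g⁻¹) * (g * h) ∈ P := by
      rw [he]; exact P.mul_mem (hνP g) (hνP h)
    rw [key (g * h) _ hn hP, ← map_mul]
    congr 1
    exact Subtype.ext he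
  · intro g
    have hP : (1 : G) * g ∈ P := by rw [one_mul]; exact g.2
    show θ ⟨ν g * g, hνP g⟩ = θ g
    rw [key (g : G) 1 N.one_mem hP]
    congr 1
    exact Subtype.ext (one_mul _)
  · intro n hn
    have hP : n⁻¹ * n ∈ P := by rw [inv_mul_cancel]; exact P.one_mem
    show θ ⟨ν n * n, hνP n⟩ = 1
    rw [key n n⁻¹ (N.inv_mem hn) hP]
    apply hθ
    show n⁻¹ * n ∈ N
    rw [inv_mul_cancel]; exact N.one_mem

end Pool.Agent.Helper3.LN
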