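import Pool.Agent.Helper64.LN.GoalsC

set_option autoImplicit false

/-! Project LN (MP_2b9d24_gt): packet LN-IP, infinite products of homeomorphisms with disjoint
supports. -/

namespace Pool.Agent.Helper3.LN

open Pool.Agent.Helper64.LN Topology

universe v

/-- The gluing of a locally finite family of maps with disjoint closed supports. -/
theorem glue_exists {X : Type v} [TopologicalSpace X] (W : ℕ → Set X) (f : ℕ → X → X)
    (hc : ∀ i, Continuous (f i)) (hW : ∀ i, IsClosed (W i))
    (hd : Pairwise (fun i j => Disjoint (W i) (W j))) (hl : LocallyFinite W)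
    (hs : ∀ i x, x ∉ W i → f i x = x) :
    ∃ g : X → X, Continuous g ∧ (∀ i, ∀ x ∈ W i, g x = f i x) ∧
      (∀ x, (∀ i, x ∉ W i) → g x = x) ∧ ∀ x, ∃ i, ∀ᶠ y in 𝓝 x, g y = f i y := by
  classical
  let g : X → X := fun x => if h : ∃ i, x ∈ W i then f h.choose x else x
  have hg1 : ∀ i, ∀ x ∈ W i, g x = f i x := by
    intro i x hx
    have h : ∃ i, x ∈ W i := ⟨i, hx⟩
    have hi : h.choose = i := by
      by_contra hne
      exact Set.disjoint_left.1 (hd hne) h.choose_spec hx
    show (if h : ∃ i, x ∈ W i then f h.choose x else x) = f i x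
    rw [dif_pos h, hi]
  have hg2 : ∀ x, (∀ i, x ∉ W i) → g x = x := by
    intro x hx
    have h : ¬ ∃ i, x ∈ W i := fun ⟨i, hi⟩ => hx i hi
    show (if h : ∃ i, x ∈ W i then f h.choose x else x) = x
    rw [dif_neg h]
  have hloc : ∀ x, ∃ i, ∀ᶠ y in 𝓝 x, g y = f i y := by
    intro x
    have hev : ∀ᶠ y in 𝓝 x, ∀ i, y ∈ W i → x ∈ W i := hl.eventually_subset hW x
    by_cases hx : ∃ i, x ∈ W i
    · obtain ⟨i, hi⟩ := hx
      refine ⟨i, ?_⟩
      filter_upwards [hev] with y hy
      by_cases hyi : y ∈ W i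
      · exact hg1 i y hyi
      · rw [hs i y hyi]
        refine hg2 y (fun j hj => ?_)
        have hxj : x ∈ W j := hy j hj
        have hij : i = j := by
          by_contra hne
          exact Set.disjoint_left.1 (hd hne) hi hxj
        exact hyi (hij ▸ hj)
    · have hx' : ∀ i, x ∉ W i := fun i hi => hx ⟨i, hi⟩
      refine ⟨0, ?_⟩
      filter_upwards [hev] with y hy
      have hyi : ∀ j, y ∉ W j := fun j hj => hx' j (hy j hj)
      rw [hs 0 y (hyi 0), hg2 y hyi]
  refine ⟨g, ?_, hg1, hg2, hloc⟩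
  rw [continuous_iff_continuousAt]
  intro x
  obtain ⟨i, hi⟩ := hloc x
  exact ((hc i).continuousAt (x := x)).congr (hi.mono fun y hy => hy.symm)

theorem goalIP : GoalIP.{v} := by
  intro X _ _ W f hW hd hl hs
  have hs' : ∀ i x, x ∉ W i → (f i).symm x = x := by
    intro i x hx
    have h := hs i x hx
    calc (f i).symm x = (f i).symm (f i x) := by rw [h]
      _ = x := (f i).symm_apply_apply x
  obtain ⟨g, hgc, hg1, hg2, hg3⟩ := glue_exists W (fun i => f i) (fun i => (f i).continuous) hW hd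
    hl hs
  obtain ⟨k, hkc, hk1, hk2, hk3⟩ := glue_exists W (fun i => (f i).symm)
    (fun i => (f i).symm.continuous) hW hd hl hs'
  have hm : ∀ i, ∀ x ∈ W i, f i x ∈ W i := by
    intro i x hx
    by_contra h
    have h1 := hs i _ h
    have h2 := (f i).injective h1
    exact h (h2.symm ▸ hx)
  have hm' : ∀ i, ∀ x ∈ W i, (f i).symm x ∈ W i := by
    intro i x hx
    by_contra h
    have h1 := hs' i _ h
    have h2 := (f i).symm.injective h1
    exact h (h2.symm ▸ hx)
  have hleft : ∀ x, k (g x) = x := by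
    intro x
    by_cases hx : ∃ i, x ∈ W i
    · obtain ⟨i, hi⟩ := hx
      rw [hg1 i x hi, hk1 i _ (hm i x hi)]
      exact (f i).symm_apply_apply x
    · have hx' : ∀ i, x ∉ W i := fun i hi => hx ⟨i, hi⟩
      rw [hg2 x hx', hk2 x hx']
  have hright : ∀ x, g (k x) = x := by
    intro x
    by_cases hx : ∃ i, x ∈ W i
    · obtain ⟨i, hi⟩ := hx
      rw [hk1 i x hi, hg1 i _ (hm' i x hi)]
      exact (f i).apply_symm_apply x
    · have hx' : ∀ i, x ∉ W i := fun i hi => hx ⟨i, hi⟩
      rw [hk2 x hx', hg2 x hx']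
  exact ⟨{ toFun := g, invFun := k, left_inv := hleft, right_inv := hright,
           continuous_toFun := hgc, continuous_invFun := hkc }, hg1, hg2, hg3⟩

end Pool.Agent.Helper3.LN
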